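import Pool.Agent.Lib_helper25.Defs1
import Pool.Agent.Lib_helper25.Main0

/-!
# Averaging the classes
-/

set_option linter.unusedSectionVars false

namespace Pool.Agent.Lib25

universe v w

section Pair

variable (n : ℕ) [NeZero n]

theorem gC_pow : (gC n) ^ n = 1 := by
  apply Prod.ext
  · change (Multiplicative.ofAdd (1 : ZMod n)) ^ n = 1
    rw [← ofAdd_nsmul]
    simp
  · change (1 : Multiplicative ℤ) ^ n = 1
    exact one_pow n

theorem gC_commute_gT : Commute (gT n) (gC n) := Commute.all _ _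

theorem cz_eq (x : CZ n) : x = (gC n) ^ (Multiplicative.toAdd x.1).val *
    (gT n) ^ (Multiplicative.toAdd x.2) := by
  have h1 := ofAdd_eq_pow n (Multiplicative.toAdd x.1)
  rw [ofAdd_toAdd] at h1
  have h2 : ((gT n) ^ (Multiplicative.toAdd x.2)).1 = 1 := by
    have := map_zpow (MonoidHom.fst (Multiplicative (ZMod n)) (Multiplicative ℤ)) (gT n)
      (Multiplicative.toAdd x.2)
    refine this.trans ?_
    exact one_zpow _
  have h3 : ((gT n) ^ (Multiplicative.toAdd x.2)).2 = x.2 := by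
    have := map_zpow (MonoidHom.snd (Multiplicative (ZMod n)) (Multiplicative ℤ)) (gT n)
      (Multiplicative.toAdd x.2)
    refine this.trans ?_
    change (Multiplicative.ofAdd (1 : ℤ)) ^ (Multiplicative.toAdd x.2) = x.2
    rw [← ofAdd_zsmul]
    simp
  apply Prod.ext
  · rw [Prod.fst_mul, Prod.pow_fst, h2, mul_one]
    exact h1
  · rw [Prod.snd_mul, Prod.pow_snd, one_pow, one_mul, h3]

variable {n}

theorem cz_ext {G : Type*} [Group G] {φ φ' : CZ n →* G} (h1 : φ (gC n) = φ' (gC n))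
    (h2 : φ (gT n) = φ' (gT n)) : φ = φ' := by
  apply MonoidHom.ext
  intro x
  rw [cz_eq n x, map_mul, map_mul, map_pow, map_pow, map_zpow, map_zpow, h1, h2]

theorem exists_pairHom {G : Type*} [Group G] (h g : G) (hn : h ^ n = 1) (hc : Commute g h) :
    ∃ φ : CZ n →* G, φ (gC n) = h ∧ φ (gT n) = g := by
  let f : ℤ →+ Additive G := zmultiplesHom (Additive G) (Additive.ofMul h)
  have hf : f n = 0 := by
    change (n : ℤ) • Additive.ofMul h = 0
    rw [natCast_zsmul, ← ofMul_pow, hn]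
    rfl
  let ψ : Multiplicative (ZMod n) →* G :=
    AddMonoidHom.toMultiplicativeLeft (ZMod.lift n ⟨f, hf⟩)
  have hψ : ψ (Multiplicative.ofAdd 1) = h := by
    change Additive.toMul (ZMod.lift n ⟨f, hf⟩ (1 : ZMod n)) = h
    have h1 := ZMod.lift_coe n ⟨f, hf⟩ (1 : ℤ)
    rw [Int.cast_one] at h1
    rw [h1]
    change Additive.toMul ((1 : ℤ) • Additive.ofMul h) = h
    rw [one_zsmul]
    rfl
  have hψ' : ∀ m, ∃ k : ℕ, ψ m = h ^ k := by
    intro m
    have h1 := ofAdd_eq_pow n (Multiplicative.toAdd m)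
    rw [ofAdd_toAdd] at h1
    exact ⟨_, by rw [h1, map_pow, hψ]⟩
  let φ : CZ n →* G := MonoidHom.noncommCoprod ψ (zpowersHom G g) (by
    intro m k
    obtain ⟨j, hj⟩ := hψ' m
    rw [hj]
    change Commute (h ^ j) (g ^ (Multiplicative.toAdd k))
    exact (hc.symm.pow_left j).zpow_right _)
  refine ⟨φ, ?_, ?_⟩
  · change ψ (Multiplicative.ofAdd 1) * zpowersHom G g 1 = h
    rw [map_one (zpowersHom G g), mul_one, hψ]
  · change ψ 1 * zpowersHom G g (Multiplicative.ofAdd 1) = g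
    rw [map_one ψ, one_mul]
    change g ^ (1 : ℤ) = g
    rw [zpow_one]

/-- The automorphism of `C_n × ℤ` defined by a unit. -/
noncomputable def al (w : (ZMod n)ˣ) : CZ n →* CZ n :=
  (exists_pairHom (n := n) ((gC n) ^ (w : ZMod n).val) (gT n)
    (by rw [← pow_mul, mul_comm, pow_mul, gC_pow, one_pow])
    (Commute.all _ _)).choose

theorem al_gC (w : (ZMod n)ˣ) : al w (gC n) = (gC n) ^ (w : ZMod n).val :=
  (exists_pairHom (n := n) ((gC n) ^ (w : ZMod n).val) (gT n)
    (by rw [← pow_mul, mul_comm, pow_mul, gC_pow, one_pow])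
    (Commute.all _ _)).choose_spec.1

theorem al_gT (w : (ZMod n)ˣ) : al w (gT n) = gT n :=
  (exists_pairHom (n := n) ((gC n) ^ (w : ZMod n).val) (gT n)
    (by rw [← pow_mul, mul_comm, pow_mul, gC_pow, one_pow])
    (Commute.all _ _)).choose_spec.2

theorem al_comp (u w : (ZMod n)ˣ) : (al u).comp (al w) = al (u * w) := by
  apply cz_ext
  · rw [MonoidHom.comp_apply, al_gC, map_pow, al_gC, al_gC, pow_val_mul (gC_pow n)]
  · rw [MonoidHom.comp_apply, al_gT, al_gT, al_gT]

/-- The action of the units on `K₀(ℤ[C_n × ℤ])`. -/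
noncomputable def tw (w : (ZMod n)ˣ) : K0 (MonoidAlgebra ℤ (CZ n)) →+
    K0 (MonoidAlgebra ℤ (CZ n)) := K0.map (MonoidAlgebra.mapDomainRingHom ℤ (al w))

theorem mapDomain_comp {M N P : Type*} [Monoid M] [Monoid N] [Monoid P] (f : M →* N)
    (g : N →* P) : (MonoidAlgebra.mapDomainRingHom ℤ g).comp (MonoidAlgebra.mapDomainRingHom ℤ f) =
      MonoidAlgebra.mapDomainRingHom ℤ (g.comp f) := by
  apply RingHom.ext
  intro x
  induction x using MonoidAlgebra.induction_linear with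
  | zero => simp
  | add a b ha hb => rw [map_add, ha, hb, map_add]
  | single a r =>
    change MonoidAlgebra.mapDomain _ (MonoidAlgebra.mapDomain _ _) = MonoidAlgebra.mapDomain _ _
    rw [MonoidAlgebra.mapDomain_single, MonoidAlgebra.mapDomain_single,
      MonoidAlgebra.mapDomain_single]
    rfl

theorem map_tw {G : Type*} [Group G] (φ : CZ n →* G) (w : (ZMod n)ˣ)
    (z : K0 (MonoidAlgebra ℤ (CZ n))) :
    K0.map (MonoidAlgebra.mapDomainRingHom ℤ φ) (tw w z) =
      K0.map (MonoidAlgebra.mapDomainRingHom ℤ (φ.comp (al w))) z := by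
  unfold tw
  rw [K0.map_map, mapDomain_comp]

theorem tw_tw (u w : (ZMod n)ˣ) (z : K0 (MonoidAlgebra ℤ (CZ n))) :
    tw u (tw w z) = tw (u * w) z := by
  unfold tw
  rw [K0.map_map, mapDomain_comp, al_comp]

/-- First averaging: over the decomposition group of `p`. -/
noncomputable def kap2 (κ : ℕ → K0 (MonoidAlgebra ℤ (CZ n))) (p : ℕ) :
    K0 (MonoidAlgebra ℤ (CZ n)) :=
  (∏ q ∈ n.primeFactors.erase p, (ucl q (1 : (ZMod n)ˣ)).card) •
    ∑ w ∈ ucl p (1 : (ZMod n)ˣ), tw w (κ p)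

/-- The sum over all primes and all units. -/
noncomputable def kapS (κ : ℕ → K0 (MonoidAlgebra ℤ (CZ n))) : K0 (MonoidAlgebra ℤ (CZ n)) :=
  ∑ q ∈ n.primeFactors, ∑ u : (ZMod n)ˣ, tw u (kap2 κ q)

/-- Second averaging. -/
noncomputable def kap3 (κ : ℕ → K0 (MonoidAlgebra ℤ (CZ n))) (p : ℕ) :
    K0 (MonoidAlgebra ℤ (CZ n)) :=
  (n.primeFactors.card * Fintype.card (ZMod n)ˣ) • kap2 κ p - kapS κ

theorem kap3_induct {M : Type*} [AddCommGroup M] (κ : ℕ → K0 (MonoidAlgebra ℤ (CZ n)))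
    (Θ : K0 (MonoidAlgebra ℤ (CZ n)) →+ M)
    (hΘ : ∀ q ∈ n.primeFactors, ∀ w : (ZMod n)ˣ, Θ (tw w (κ q)) = 0) (p : ℕ)
    (hp : p ∈ n.primeFactors) : Θ (kap3 κ p) = 0 := by
  have h2 : ∀ q ∈ n.primeFactors, ∀ u : (ZMod n)ˣ, Θ (tw u (kap2 κ q)) = 0 := by
    intro q hq u
    unfold kap2
    rw [map_nsmul, map_nsmul, map_sum, map_sum, Finset.sum_eq_zero, smul_zero]
    intro w _
    rw [tw_tw]
    exact hΘ q hq _
  have h3 : ∀ q ∈ n.primeFactors, Θ (kap2 κ q) = 0 := by
    intro q hq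
    unfold kap2
    rw [map_nsmul, map_sum, Finset.sum_eq_zero, smul_zero]
    intro w _
    exact hΘ q hq _
  unfold kap3 kapS
  rw [map_sub, map_nsmul, h3 p hp, smul_zero, map_sum, Finset.sum_eq_zero, sub_zero]
  intro q hq
  rw [map_sum, Finset.sum_eq_zero]
  intro u _
  exact h2 q hq u

theorem tw_kap2 (κ : ℕ → K0 (MonoidAlgebra ℤ (CZ n))) (p : ℕ) (w : (ZMod n)ˣ)
    (hw : uRel n p w 1) : tw w (kap2 κ p) = kap2 κ p := by
  unfold kap2
  rw [map_nsmul, map_sum]
  congr 1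
  refine Finset.sum_bij (fun w' _ => w * w') ?_ ?_ ?_ ?_
  · intro w' hw'
    rw [mem_ucl] at hw' ⊢
    have h1 := uRel_mul hw w'
    rw [one_mul] at h1
    exact uRel_trans h1 hw'
  · intro a _ b _ hab
    exact mul_left_cancel hab
  · intro b hb
    refine ⟨w⁻¹ * b, ?_, by rw [mul_inv_cancel_left]⟩
    rw [mem_ucl] at hb ⊢
    have h1 := uRel_mul hw (w⁻¹ * b)
    rw [mul_inv_cancel_left, one_mul] at h1
    exact uRel_trans (uRel_symm h1) hb
  · intro w' _
    exact tw_tw w w' _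

theorem tw_kapS (κ : ℕ → K0 (MonoidAlgebra ℤ (CZ n))) (w : (ZMod n)ˣ) :
    tw w (kapS κ) = kapS κ := by
  unfold kapS
  rw [map_sum]
  apply Finset.sum_congr rfl
  intro q _
  rw [map_sum, ← Equiv.sum_comp (Equiv.mulLeft w) (fun u : (ZMod n)ˣ => tw u (kap2 κ q))]
  apply Finset.sum_congr rfl
  intro u _
  exact tw_tw w u _

theorem tw_kap3 (κ : ℕ → K0 (MonoidAlgebra ℤ (CZ n))) (p : ℕ) (w : (ZMod n)ˣ)
    (hw : uRel n p w 1) : tw w (kap3 κ p) = kap3 κ p := by
  unfold kap3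
  rw [map_sub, map_nsmul, tw_kap2 κ p w hw, tw_kapS]

theorem sum_kap3 (κ : ℕ → K0 (MonoidAlgebra ℤ (CZ n))) :
    ∑ q ∈ n.primeFactors, ∑ u : (ZMod n)ˣ, tw u (kap3 κ q) = 0 := by
  have h1 : ∀ q ∈ n.primeFactors, ∑ u : (ZMod n)ˣ, tw u (kap3 κ q) =
      (n.primeFactors.card * Fintype.card (ZMod n)ˣ) • ∑ u : (ZMod n)ˣ, tw u (kap2 κ q) -
        Fintype.card (ZMod n)ˣ • kapS κ := by
    intro q _
    rw [Finset.smul_sum, ← Finset.card_univ, ← Finset.sum_const, ← Finset.sum_sub_distrib]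
    apply Finset.sum_congr rfl
    intro u _
    unfold kap3
    rw [map_sub, map_nsmul, tw_kapS, Finset.card_univ]
  rw [Finset.sum_congr rfl h1, Finset.sum_sub_distrib, ← Finset.smul_sum, Finset.sum_const,
    ← mul_smul]
  exact sub_self _

/-- The value of the functionals on the averaged classes. -/
theorem functional_kap3 {G : Type v} [Group G] (κ : ℕ → K0 (MonoidAlgebra ℤ (CZ n)))
    (L : ℕ → G → G → ℤ) (hL : IsAdm L) (F : K0 (MonoidAlgebra ℤ G) →+ ℚ)
    (hF : ∀ (p : ℕ) (φ : CZ n →* G), p.Prime → p ∣ n → Function.Injective (fun c => φ (c, 1)) →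
      F (K0.map (MonoidAlgebra.mapDomainRingHom ℤ φ) (κ p)) = (L p (φ (gC n)) (φ (gT n)) : ℚ))
    (p : ℕ) (hp : p ∈ n.primeFactors) (φ : CZ n →* G)
    (hφ : Function.Injective (fun c => φ (c, 1))) :
    F (K0.map (MonoidAlgebra.mapDomainRingHom ℤ φ) (kap3 κ p)) =
      ((n.primeFactors.card * Fintype.card (ZMod n)ˣ *
        ∏ q ∈ n.primeFactors, (ucl q (1 : (ZMod n)ˣ)).card : ℕ) : ℚ) *
        (L p (φ (gC n)) (φ (gT n)) : ℚ) := by
  set M : ℕ := ∏ q ∈ n.primeFactors, (ucl q (1 : (ZMod n)ˣ)).card with hM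
  have hpow : ∀ (φ : CZ n →* G), φ (gC n) ^ n = 1 := by
    intro φ
    rw [← map_pow, gC_pow, map_one]
  have hinj : ∀ (φ : CZ n →* G) (w : (ZMod n)ˣ), Function.Injective (fun c => φ (c, 1)) →
      Function.Injective (fun c => (φ.comp (al w)) (c, 1)) := by
    intro φ w hφ c c' hcc
    have h1 : ∀ c, al w (c, 1) = ((al w (c, 1)).1, 1) := by
      intro c
      apply Prod.ext
      · rfl
      · have h2 := ofAdd_eq_pow n (Multiplicative.toAdd c)
        rw [ofAdd_toAdd] at h2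
        have h3 : ((c, 1) : CZ n) = (gC n) ^ (Multiplicative.toAdd c).val := by
          apply Prod.ext
          · rw [Prod.pow_fst]
            exact h2
          · rw [Prod.pow_snd]
            exact (one_pow _).symm
        rw [h3, map_pow, al_gC, ← pow_mul]
        change ((gC n) ^ _).2 = 1
        rw [Prod.pow_snd]
        exact one_pow _
    have h4 : al w (c, 1) = al w (c', 1) := by
      rw [h1 c, h1 c']
      have h5 : φ ((al w (c, 1)).1, 1) = φ ((al w (c', 1)).1, 1) := by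
        rw [← h1 c, ← h1 c']
        exact hcc
      have h6 := hφ h5
      rw [h6]
    have h7 := congrArg (al w⁻¹) h4
    rw [← MonoidHom.comp_apply, ← MonoidHom.comp_apply, al_comp, inv_mul_cancel] at h7
    have h8 : al (1 : (ZMod n)ˣ) = MonoidHom.id _ := by
      apply cz_ext
      · rw [al_gC, pow_val_one (gC_pow n)]
        rfl
      · rw [al_gT]
        rfl
    rw [h8] at h7
    exact congrArg Prod.fst h7
  -- the value on `kap2`
  have h2 : ∀ q ∈ n.primeFactors, ∀ φ : CZ n →* G, Function.Injective (fun c => φ (c, 1)) →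
      F (K0.map (MonoidAlgebra.mapDomainRingHom ℤ φ) (kap2 κ q)) =
        (M : ℚ) * (L q (φ (gC n)) (φ (gT n)) : ℚ) := by
    intro q hq φ hφ
    unfold kap2
    rw [map_nsmul, map_nsmul, map_sum, map_sum]
    have h3 : ∀ w ∈ ucl q (1 : (ZMod n)ˣ),
        F (K0.map (MonoidAlgebra.mapDomainRingHom ℤ φ) (tw w (κ q))) =
          (L q (φ (gC n)) (φ (gT n)) : ℚ) := by
      intro w hw
      rw [map_tw, hF q _ (Nat.prime_of_mem_primeFactors hq) (Nat.dvd_of_mem_primeFactors hq)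
        (hinj φ w hφ), MonoidHom.comp_apply, MonoidHom.comp_apply, al_gC, al_gT, map_pow]
      congr 1
      obtain ⟨i, k, hik⟩ := mem_ucl.1 hw
      refine hL.frob q _ _ _ i k ?_ (zpowers_pow_val (hpow φ) w) ?_
      · refine Commute.pow_right ?_ _
        change φ _ * φ _ = φ _ * φ _
        rw [← map_mul, ← map_mul, mul_comm]
      · rw [← pow_mul, ← map_pow, ← map_pow]
        congr 1
        have h4 : ∀ a b : ℕ, ((a : ℕ) : ZMod n) = b → (gC n) ^ a = (gC n) ^ b := by
          intro a b hab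
          have h5 : orderOf (gC n) ∣ n := orderOf_dvd_of_pow_eq_one (gC_pow n)
          rw [pow_eq_pow_iff_modEq]
          exact ((ZMod.natCast_eq_natCast_iff _ _ _).1 hab).of_dvd h5
        apply h4
        push_cast
        rw [ZMod.natCast_zmod_val, hik, Units.val_one, one_mul]
    rw [Finset.sum_congr rfl h3, Finset.sum_const, nsmul_eq_mul, nsmul_eq_mul, ← mul_assoc,
      ← Nat.cast_mul, hM, Finset.prod_erase_mul _ _ hq]
  have h3 : F (K0.map (MonoidAlgebra.mapDomainRingHom ℤ φ) (kapS κ)) = 0 := by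
    unfold kapS
    rw [map_sum, map_sum]
    have h4 : ∀ q ∈ n.primeFactors, F (K0.map (MonoidAlgebra.mapDomainRingHom ℤ φ)
        (∑ u : (ZMod n)ˣ, tw u (kap2 κ q))) =
        (M : ℚ) * ((∑ a ∈ (Finset.range n).filter (fun a => a.Coprime n),
          L q (φ (gC n) ^ a) (φ (gT n)) : ℤ) : ℚ) := by
      intro q hq
      rw [← sum_units_eq (fun z => L q z (φ (gT n))), map_sum, map_sum]
      push_cast
      rw [Finset.mul_sum]
      apply Finset.sum_congr rfl
      intro u _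
      rw [map_tw, h2 q hq _ (hinj φ u hφ), MonoidHom.comp_apply, MonoidHom.comp_apply, al_gC,
        al_gT, map_pow]
    rw [Finset.sum_congr rfl h4, ← Finset.mul_sum, ← Int.cast_sum]
    have hord : orderOf (φ (gC n)) = n := by
      have h5 : orderOf ((φ.comp (MonoidHom.inl _ _)) (Multiplicative.ofAdd 1)) =
        orderOf (Multiplicative.ofAdd (1 : ZMod n)) := orderOf_injective _ hφ _
      change orderOf ((φ.comp (MonoidHom.inl _ _)) (Multiplicative.ofAdd 1)) = n
      rw [h5, orderOf_gen (zpowers_one_eq_top n), card_Cn]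
    have hfin : IsOfFinOrder (φ (gC n)) := by
      rw [← orderOf_pos_iff, hord]
      exact Nat.pos_of_ne_zero (NeZero.ne n)
    have h6 := hL.sum (φ (gC n)) (φ (gT n)) hfin (by
      change φ _ * φ _ = φ _ * φ _
      rw [← map_mul, ← map_mul, mul_comm])
    rw [hord] at h6
    rw [h6, Int.cast_zero, mul_zero]
  unfold kap3
  rw [map_sub, map_sub, h3, sub_zero, map_nsmul, map_nsmul, h2 p hp φ hφ, nsmul_eq_mul]
  push_cast
  ring

end Pair

end Pool.Agent.Lib25
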