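import Pool.Agent.Lib_helper25.Main0
import Pool.Agent.Lib_helper25.Rel0

/-!
# From functionals to relations
-/

set_option linter.unusedSectionVars false

namespace Pool.Agent.Lib25

universe v w

section MuMore

variable {G : Type v} [Group G] {n : ℕ} [NeZero n]

theorem commute_pow_val {h g : G} (hn : h ^ n = 1) (a : (ZMod n)ˣ) :
    Commute g (h ^ (a : ZMod n).val) ↔ Commute g h := by
  constructor
  · intro H
    have h1 : (h ^ (a : ZMod n).val) ^ ((a⁻¹ : (ZMod n)ˣ) : ZMod n).val = h := by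
      rw [← pow_val_mul hn, mul_inv_cancel]
      exact pow_val_one hn
    have h2 := H.pow_right ((a⁻¹ : (ZMod n)ˣ) : ZMod n).val
    rwa [h1] at h2
  · intro H
    exact H.pow_right _

theorem isCentHom_pow_val {h : G} (hn : h ^ n = 1) (a : (ZMod n)ˣ) {f : G → ℤ}
    (hf : IsCentHom h f) : IsCentHom (h ^ (a : ZMod n).val) f :=
  fun g g' hg hg' => hf g g' ((commute_pow_val hn a).1 hg) ((commute_pow_val hn a).1 hg')

theorem mu_eq_of_conj {h c γ x : G} {f : G → ℤ} (hf : IsCentHom h f) (hx : x * h * x⁻¹ = c)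
    (hγ : Commute γ c) : mu h f γ c = f (x⁻¹ * γ * x) := by
  have hc : IsConj h c := isConj_iff.2 ⟨x, hx⟩
  rw [mu_of_commute hc hγ]
  have h1 := cx_spec hc
  have hw := commute_conj hc hγ
  set y := cx h c
  have hz : Commute (y⁻¹ * x) h := by
    change y⁻¹ * x * h = h * (y⁻¹ * x)
    calc y⁻¹ * x * h = y⁻¹ * (x * h * x⁻¹) * x := by group
      _ = y⁻¹ * (y * h * y⁻¹) * x := by rw [hx, h1]
      _ = h * (y⁻¹ * x) := by group
  have h2 : x⁻¹ * γ * x = (y⁻¹ * x)⁻¹ * ((y⁻¹ * γ * y) * (y⁻¹ * x)) := by group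
  rw [h2, hf _ _ hz.inv_left (hw.mul_left hz), hf _ _ hw hz, hf.inv hz]
  ring

theorem mu_conj_conj {h c γ : G} {f : G → ℤ} (hf : IsCentHom h f) (hγ : Commute γ c) (x : G) :
    mu h f (x * γ * x⁻¹) (x * c * x⁻¹) = mu h f γ c := by
  by_cases hc : IsConj h c
  · obtain ⟨y, hy⟩ := isConj_iff.1 hc
    have hγ' : Commute (x * γ * x⁻¹) (x * c * x⁻¹) := by
      change x * γ * x⁻¹ * (x * c * x⁻¹) = x * c * x⁻¹ * (x * γ * x⁻¹)
      calc x * γ * x⁻¹ * (x * c * x⁻¹) = x * (γ * c) * x⁻¹ := by group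
        _ = x * (c * γ) * x⁻¹ := by rw [hγ.eq]
        _ = _ := by group
    rw [mu_eq_of_conj hf hy hγ, mu_eq_of_conj (x := x * y) hf (by rw [← hy]; group) hγ']
    congr 1
    group
  · rw [mu_of_not hc, mu_of_not (fun H => hc ((isConj_conj h x c).1 H))]

theorem isConj_pow_val {h c : G} (hn : h ^ n = 1) (hc : c ^ n = 1) (u : (ZMod n)ˣ) :
    IsConj (h ^ (u : ZMod n).val) (c ^ (u : ZMod n).val) ↔ IsConj h c := by
  constructor
  · intro H
    have h1 := isConj_pow_nat H ((u⁻¹ : (ZMod n)ˣ) : ZMod n).val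
    rw [← pow_val_mul hn, ← pow_val_mul hc, mul_inv_cancel, pow_val_one hn, pow_val_one hc] at h1
    exact h1
  · intro H
    exact isConj_pow_nat H _

theorem mu_pow_pow {h c γ : G} {f : G → ℤ} (hn : h ^ n = 1) (hcn : c ^ n = 1) (hf : IsCentHom h f)
    (hγ : Commute γ c) (u : (ZMod n)ˣ) :
    mu (h ^ (u : ZMod n).val) f γ (c ^ (u : ZMod n).val) = mu h f γ c := by
  by_cases hc : IsConj h c
  · obtain ⟨y, hy⟩ := isConj_iff.1 hc
    rw [mu_eq_of_conj hf hy hγ, mu_eq_of_conj (x := y) (isCentHom_pow_val hn u hf)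
      (by rw [← conj_pow, hy]) (hγ.pow_right _)]
  · rw [mu_of_not hc, mu_of_not (fun H => hc ((isConj_pow_val hn hcn u).1 H))]

theorem exists_unit_of_zpowers {h h' : G} (hn : orderOf h = n)
    (hz : Subgroup.zpowers h = Subgroup.zpowers h') : ∃ u : (ZMod n)ˣ, h' = h ^ (u : ZMod n).val := by
  have hord : orderOf h' = n := by
    rw [← Nat.card_zpowers, ← hz, Nat.card_zpowers, hn]
  have hfin : IsOfFinOrder h := by
    rw [← orderOf_pos_iff, hn]
    exact Nat.pos_of_ne_zero (NeZero.ne n)
  have hmem : h' ∈ Subgroup.zpowers h := by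
    rw [hz]
    exact Subgroup.mem_zpowers _
  rw [← hfin.mem_powers_iff_mem_zpowers, Submonoid.mem_powers_iff] at hmem
  obtain ⟨k, hk⟩ := hmem
  have hcop : k.Coprime n := by
    have h3 : orderOf (h ^ k) = n := by rw [hk, hord]
    rcases Nat.eq_zero_or_pos k with h0 | h0
    · subst h0
      rw [pow_zero, orderOf_one] at h3
      rw [← h3]
      exact Nat.coprime_one_right 0
    · rw [orderOf_pow' h h0.ne', hn] at h3
      have hnpos : 0 < n := Nat.pos_of_ne_zero (NeZero.ne n)
      have h4 := Nat.div_mul_cancel (Nat.gcd_dvd_left n k)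
      rw [h3] at h4
      have h5 : n.gcd k = 1 := by
        have h6 : n * n.gcd k = n * 1 := by rw [mul_one]; exact h4
        exact Nat.eq_of_mul_eq_mul_left hnpos h6
      rw [Nat.coprime_comm]
      exact h5
  refine ⟨ZMod.unitOfCoprime k hcop, ?_⟩
  rw [ZMod.coe_unitOfCoprime]
  have h5 : h ^ ((k : ℕ) : ZMod n).val = h ^ k := by
    rw [ZMod.val_natCast, pow_eq_pow_iff_modEq, hn]
    exact Nat.mod_modEq _ _
  rw [h5, hk]

/-- The functional attached to a homomorphism on the centraliser and a coefficient function. -/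
noncomputable def Lfm (h0 : G) (m : ℕ → (ZMod n)ˣ → ℤ) (f : G → ℤ) : ℕ → G → G → ℤ :=
  fun p h g => ∑ a : (ZMod n)ˣ, m p a * mu (h0 ^ (a : ZMod n).val) f g h

theorem mu_eq_zero_of_orderOf {h0 h g : G} {f : G → ℤ} (hord : orderOf h0 = n) (a : (ZMod n)ˣ)
    (hh : orderOf h ≠ n) : mu (h0 ^ (a : ZMod n).val) f g h = 0 := by
  apply mu_of_not
  intro hc
  apply hh
  obtain ⟨u, hu⟩ := hc
  rw [← hu.orderOf_eq (u : G), orderOf_pow_val hord]

theorem isAdm_Lfm {h0 : G} (hord : orderOf h0 = n) (m : ℕ → (ZMod n)ˣ → ℤ) (f : G → ℤ)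
    (hf : IsCentHom h0 f) (hm1 : ∀ p a b, uRel n p a b → m p a = m p b)
    (hm2 : ∑ p ∈ n.primeFactors, ∑ a, m p a = 0) : IsAdm (Lfm h0 m f) := by
  have hpow : h0 ^ n = 1 := by rw [← hord]; exact pow_orderOf_eq_one _
  have hfa : ∀ a : (ZMod n)ˣ, IsCentHom (h0 ^ (a : ZMod n).val) f :=
    fun a => isCentHom_pow_val hpow a hf
  refine ⟨?_, ?_, ?_, ?_⟩
  · intro p h g g' hg hg'
    unfold Lfm
    rw [← Finset.sum_add_distrib]
    apply Finset.sum_congr rfl
    intro a _
    have h1 : g' * h * g'⁻¹ = h := by rw [hg'.eq]; group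
    rw [mu_mul (hfa a), h1, mul_add]
  · intro p h g x hg
    unfold Lfm
    apply Finset.sum_congr rfl
    intro a _
    rw [mu_conj_conj (hfa a) hg x]
  · intro p h h' g j k hg hz hpw
    have hord' : orderOf h' = orderOf h := by
      rw [← Nat.card_zpowers, ← hz, Nat.card_zpowers]
    by_cases hh : orderOf h = n
    swap
    · unfold Lfm
      rw [Finset.sum_eq_zero, Finset.sum_eq_zero]
      · intro a _
        rw [mu_eq_zero_of_orderOf hord a (by rw [hord']; exact hh), mul_zero]
      · intro a _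
        rw [mu_eq_zero_of_orderOf hord a hh, mul_zero]
    obtain ⟨w, rfl⟩ := exists_unit_of_zpowers hh hz
    have hhn : h ^ n = 1 := by rw [← hh]; exact pow_orderOf_eq_one _
    have hrel : uRel n p 1 w := by
      refine ⟨j, k, ?_⟩
      rw [← pow_mul, pow_eq_pow_iff_modEq, hh, ← ZMod.natCast_eq_natCast_iff] at hpw
      push_cast at hpw
      rw [ZMod.natCast_zmod_val] at hpw
      rw [Units.val_one, one_mul]
      exact hpw
    unfold Lfm
    rw [← Equiv.sum_comp (Equiv.mulRight w) (fun a : (ZMod n)ˣ => m p a *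
      mu (h0 ^ (a : ZMod n).val) f g (h ^ (w : ZMod n).val))]
    apply Finset.sum_congr rfl
    intro a _
    rw [Equiv.coe_mulRight, pow_val_mul hpow, mu_pow_pow (by rw [← pow_mul, mul_comm, pow_mul,
      hpow, one_pow]) hhn (hfa a) hg w]
    congr 1
    apply hm1
    have h1 := uRel_mul hrel a
    rwa [one_mul, mul_comm w a] at h1
  · intro h g hfin hg
    by_cases hh : orderOf h = n
    swap
    · apply Finset.sum_eq_zero
      intro p _
      apply Finset.sum_eq_zero
      intro b hb
      unfold Lfm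
      apply Finset.sum_eq_zero
      intro a _
      rw [mu_eq_zero_of_orderOf hord a, mul_zero]
      rw [Finset.mem_filter] at hb
      rw [Nat.Coprime.orderOf_pow (Nat.coprime_comm.1 hb.2)]
      exact hh
    have hhn : h ^ n = 1 := by rw [← hh]; exact pow_orderOf_eq_one _
    rw [hh]
    have h1 : ∀ p ∈ n.primeFactors, ∑ a ∈ (Finset.range n).filter (fun a => a.Coprime n),
        Lfm h0 m f p (h ^ a) g = ∑ c : (ZMod n)ˣ, (∑ b : (ZMod n)ˣ, m p b) *
          mu (h0 ^ (c : ZMod n).val) f g h := by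
      intro p _
      rw [← sum_units_eq (fun z => Lfm h0 m f p z g)]
      unfold Lfm
      have h2 : ∀ u : (ZMod n)ˣ, ∑ a : (ZMod n)ˣ, m p a *
          mu (h0 ^ (a : ZMod n).val) f g (h ^ (u : ZMod n).val) =
          ∑ c : (ZMod n)ˣ, m p (c * u) * mu (h0 ^ (c : ZMod n).val) f g h := by
        intro u
        rw [← Equiv.sum_comp (Equiv.mulRight u) (fun a : (ZMod n)ˣ => m p a *
          mu (h0 ^ (a : ZMod n).val) f g (h ^ (u : ZMod n).val))]
        apply Finset.sum_congr rfl
        intro c _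
        rw [Equiv.coe_mulRight, pow_val_mul hpow, mu_pow_pow (by rw [← pow_mul, mul_comm, pow_mul,
          hpow, one_pow]) hhn (hfa c) hg u]
      rw [Finset.sum_congr rfl (fun u _ => h2 u), Finset.sum_comm]
      apply Finset.sum_congr rfl
      intro c _
      rw [← Finset.sum_mul]
      congr 1
      exact Equiv.sum_comp (Equiv.mulLeft c) (fun b : (ZMod n)ˣ => m p b)
    rw [Finset.sum_congr rfl h1, Finset.sum_comm]
    apply Finset.sum_eq_zero
    intro c _
    rw [← Finset.sum_mul, hm2, zero_mul]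

end MuMore

section Abel

variable {G : Type v} [Group G]

open scoped Classical in
/-- The class in the abelianization of the centraliser of `h0`. -/
noncomputable def toA (h0 x : G) : Additive (Abelianization (Subgroup.centralizer {h0})) :=
  if hx : x ∈ Subgroup.centralizer {h0} then Additive.ofMul (Abelianization.of ⟨x, hx⟩) else 0

theorem mem_cent {h0 x : G} : x ∈ Subgroup.centralizer {h0} ↔ Commute x h0 := by
  rw [Subgroup.mem_centralizer_singleton_iff]
  rfl

theorem toA_mul {h0 x y : G} (hx : Commute x h0) (hy : Commute y h0) :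
    toA h0 (x * y) = toA h0 x + toA h0 y := by
  unfold toA
  rw [dif_pos (mem_cent.2 hx), dif_pos (mem_cent.2 hy), dif_pos (mem_cent.2 (hx.mul_left hy)),
    ← ofMul_mul, ← map_mul]
  rfl

theorem exists_toA (h0 : G) (α : Additive (Abelianization (Subgroup.centralizer {h0}))) :
    ∃ x, Commute x h0 ∧ toA h0 x = α := by
  obtain ⟨⟨x, hx⟩, hα⟩ := QuotientGroup.mk_surjective (Additive.toMul α)
  refine ⟨x, mem_cent.1 hx, ?_⟩
  unfold toA
  rw [dif_pos hx]
  exact congrArg Additive.ofMul hα

theorem exists_addHom (h0 : G) (φ : G → ℚ)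
    (hφ : ∀ x y, Commute x h0 → Commute y h0 → φ (x * y) = φ x + φ y) :
    ∃ E : Additive (Abelianization (Subgroup.centralizer {h0})) →+ ℚ,
      ∀ x, Commute x h0 → E (toA h0 x) = φ x := by
  let F : Subgroup.centralizer {h0} →* Multiplicative ℚ :=
    { toFun := fun x => Multiplicative.ofAdd (φ x)
      map_one' := by
        have h1 := hφ 1 1 (Commute.one_left _) (Commute.one_left _)
        rw [mul_one] at h1
        have h2 : φ 1 = 0 := by linarith
        change Multiplicative.ofAdd (φ 1) = 1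
        rw [h2]
        rfl
      map_mul' := fun x y => by
        rw [← ofAdd_add, ← hφ x y (mem_cent.1 x.2) (mem_cent.1 y.2)]
        rfl }
  refine ⟨MonoidHom.toAdditiveLeft (Abelianization.lift F), fun x hx => ?_⟩
  unfold toA
  rw [dif_pos (mem_cent.2 hx)]
  change Multiplicative.toAdd (Abelianization.lift F (Abelianization.of ⟨x, _⟩)) = φ x
  rw [Abelianization.lift_apply_of]
  rfl

theorem detect_A {h0 : G} (hZ : ZDetects (Subgroup.centralizer {h0}))
    (α : Additive (Abelianization (Subgroup.centralizer {h0})))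
    (hα : ∀ f : Additive (Abelianization (Subgroup.centralizer {h0})) →+ ℤ, f α = 0)
    (E : Additive (Abelianization (Subgroup.centralizer {h0})) →+ ℚ) : E α = 0 := by
  obtain ⟨z, hz⟩ := QuotientGroup.mk_surjective (Additive.toMul α)
  have h1 := hZ z (fun f => by
    have h2 := hα (MonoidHom.toAdditiveLeft (Abelianization.lift f))
    have h3 : α = Additive.ofMul (Abelianization.of z) := congrArg Additive.ofMul hz.symm
    rw [h3] at h2
    change Multiplicative.toAdd (Abelianization.lift f (Abelianization.of z)) = 0 at h2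
    rw [Abelianization.lift_apply_of] at h2
    exact h2) ((AddMonoidHom.toMultiplicativeRight E).comp Abelianization.of)
  have h3 : α = Additive.ofMul (Abelianization.of z) := congrArg Additive.ofMul hz.symm
  rw [h3]
  exact h1

end Abel

section Class

variable {G : Type v} [Group G] {n : ℕ} [NeZero n]

/-- The conditions on a `ℚ`-valued family of functionals. -/
structure IsAdmQ (ell : ℕ → G → G → ℚ) : Prop where
  add : ∀ p h g g', Valid p h g → Valid p h g' → ell p h (g * g') = ell p h g + ell p h g'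
  conj : ∀ p h g x, Valid p h g → ell p (x * h * x⁻¹) (x * g * x⁻¹) = ell p h g
  frob : ∀ p h h' g (j k : ℕ), Valid p h g → Subgroup.zpowers h = Subgroup.zpowers h' →
    h ^ p ^ j = h' ^ p ^ k → ell p h' g = ell p h g
  sum : ∀ h g, IsOfFinOrder h → Commute g h → ∑ p ∈ (orderOf h).primeFactors,
    ∑ a ∈ (Finset.range (orderOf h)).filter (fun a => a.Coprime (orderOf h)), ell p (h ^ a) g = 0

theorem sum_classes' (p : ℕ) (Y : (ZMod n)ˣ → ℚ) :
    ∑ a : (ZMod n)ˣ, (∑ u ∈ ucl p a, Y u) / ((ucl p a).card : ℚ) = ∑ u, Y u := by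
  rw [← sum_classes p Y]
  exact (Equiv.sum_comp (Equiv.inv (ZMod n)ˣ)
    (fun a => (∑ u ∈ ucl p a, Y u) / ((ucl p a).card : ℚ))).symm

theorem sum_units_eq' {h : G} (F : G → ℚ) :
    ∑ u : (ZMod n)ˣ, F (h ^ (u : ZMod n).val) =
      ∑ a ∈ (Finset.range n).filter (fun a => a.Coprime n), F (h ^ a) := by
  refine Finset.sum_bij (fun (u : (ZMod n)ˣ) _ => (u : ZMod n).val) ?_ ?_ ?_ ?_
  · intro u _
    rw [Finset.mem_filter, Finset.mem_range]
    exact ⟨ZMod.val_lt _, ZMod.val_coe_unit_coprime u⟩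
  · intro u _ v _ huv
    exact Units.ext (ZMod.val_injective n huv)
  · intro a ha
    rw [Finset.mem_filter, Finset.mem_range] at ha
    refine ⟨ZMod.unitOfCoprime a ha.2, Finset.mem_univ _, ?_⟩
    rw [ZMod.coe_unitOfCoprime, ZMod.val_natCast, Nat.mod_eq_of_lt ha.1]
  · intro u _
    rfl

open scoped Classical in
theorem card_conj {h0 h : G} (hord : orderOf h0 = n) (hcz : cz h0 = cz h) :
    (Finset.univ.filter (fun a : (ZMod n)ˣ => IsConj (h0 ^ (a : ZMod n).val) h)).card =
    (Finset.univ.filter (fun a : (ZMod n)ˣ => IsConj (h0 ^ (a : ZMod n).val) h0)).card := by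
  have hpow : h0 ^ n = 1 := by rw [← hord]; exact pow_orderOf_eq_one _
  obtain ⟨u0, hu0⟩ := exists_unit_of_cz hord hcz
  symm
  refine Finset.card_bij (fun a _ => a * u0) ?_ ?_ ?_
  · intro a ha
    rw [Finset.mem_filter] at ha ⊢
    refine ⟨Finset.mem_univ _, IsConj.trans ?_ hu0.symm⟩
    rw [pow_val_mul hpow]
    exact isConj_pow_nat ha.2 _
  · intro a _ b _ hab
    exact mul_right_cancel hab
  · intro b hb
    refine ⟨b * u0⁻¹, ?_, by rw [inv_mul_cancel_right]⟩
    rw [Finset.mem_filter] at hb ⊢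
    refine ⟨Finset.mem_univ _, ?_⟩
    have h1 := isConj_pow_nat (hb.2.trans hu0) ((u0⁻¹ : (ZMod n)ˣ) : ZMod n).val
    rw [← pow_val_mul hpow, ← pow_val_mul hpow, mul_inv_cancel, pow_val_one hpow] at h1
    exact h1

open scoped Classical in
/-- The contribution of one class of cyclic subgroups. -/
theorem class_zero {ι : Type w} (s : Finset ι) (p : ι → ℕ) (h g : ι → G) (c : ι → ℤ)
    (hv : ∀ i ∈ s, Valid (p i) (h i) (g i))
    (hs : ∀ L : ℕ → G → G → ℤ, IsAdm L →
      ∑ i ∈ s, (c i : ℚ) * (L (p i) (h i) (g i) : ℚ) = 0)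
    (ell : ℕ → G → G → ℚ) (hell : IsAdmQ ell) (h0 : G) (hord : orderOf h0 = n)
    (q0 : ℕ) (hq0 : q0.Prime) (hq0n : q0 ∣ n)
    (hZ : ZDetects (Subgroup.centralizer {h0})) :
    ∑ i ∈ s.filter (fun i => cz h0 = cz (h i)), (c i : ℚ) * ell (p i) (h i) (g i) = 0 := by
  have hnpos : 0 < n := Nat.pos_of_ne_zero (NeZero.ne n)
  have hpow : h0 ^ n = 1 := by rw [← hord]; exact pow_orderOf_eq_one _
  have hfin0 : IsOfFinOrder h0 := by rw [← orderOf_pos_iff, hord]; exact hnpos
  set T := s.filter (fun i => cz h0 = cz (h i)) with hT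
  let α : ι → (ZMod n)ˣ → Additive (Abelianization (Subgroup.centralizer {h0})) := fun i a =>
    if IsConj (h0 ^ (a : ZMod n).val) (h i) then
      toA h0 ((cx (h0 ^ (a : ZMod n).val) (h i))⁻¹ * g i * cx (h0 ^ (a : ZMod n).val) (h i)) else 0
  let Zq : ℕ → (ZMod n)ˣ → Additive (Abelianization (Subgroup.centralizer {h0})) := fun q a =>
    ∑ i ∈ T.filter (fun i => p i = q), c i • α i a
  have hTmem : ∀ i ∈ T, i ∈ s ∧ cz h0 = cz (h i) := fun i hi => Finset.mem_filter.1 hi
  have hTp : ∀ i ∈ T, p i ∈ n.primeFactors := by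
    intro i hi
    obtain ⟨h1, h2⟩ := hTmem i hi
    rw [Nat.mem_primeFactors]
    refine ⟨(hv i h1).prime, ?_, hnpos.ne'⟩
    rw [← hord, orderOf_of_cz h2]
    exact (hv i h1).dvd
  have hvalid : ∀ q ∈ n.primeFactors, ∀ (a : (ZMod n)ˣ) x, Commute x h0 →
      Valid q (h0 ^ (a : ZMod n).val) x := by
    intro q hq a x hx
    refine ⟨Nat.prime_of_mem_primeFactors hq, hfin0.pow, ?_, hx.pow_right _⟩
    rw [orderOf_pow_val hord]
    exact Nat.dvd_of_mem_primeFactors hq
  -- the functionals on the abelianization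
  have hE : ∀ (q : ℕ) (a : (ZMod n)ˣ),
      ∃ E : Additive (Abelianization (Subgroup.centralizer {h0})) →+ ℚ,
      q ∈ n.primeFactors → ∀ x, Commute x h0 → E (toA h0 x) = ell q (h0 ^ (a : ZMod n).val) x := by
    intro q a
    by_cases hq : q ∈ n.primeFactors
    · obtain ⟨E, hE⟩ := exists_addHom h0 (fun x => ell q (h0 ^ (a : ZMod n).val) x)
        (fun x y hx hy => hell.add _ _ _ _ (hvalid q hq a x hx) (hvalid q hq a y hy))
      exact ⟨E, fun _ => hE⟩
    · exact ⟨0, fun h => absurd h hq⟩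
  choose E hE using hE
  -- step 1
  have step1 : ∀ (m : ℕ → (ZMod n)ˣ → ℤ) (_ : ∀ p a b, uRel n p a b → m p a = m p b)
      (_ : ∑ p ∈ n.primeFactors, ∑ a, m p a = 0)
      (F : Additive (Abelianization (Subgroup.centralizer {h0})) →+ ℚ),
      ∑ q ∈ n.primeFactors, ∑ a, (m q a : ℚ) * F (Zq q a) = 0 := by
    intro m hm1 hm2 F
    have h1 : ∀ F' : Additive (Abelianization (Subgroup.centralizer {h0})) →+ ℤ,
        F' (∑ q ∈ n.primeFactors, ∑ a, m q a • Zq q a) = 0 := by
      intro F'
      have hcent : IsCentHom h0 (fun x => F' (toA h0 x)) := by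
        intro x y hx hy
        change F' (toA h0 (x * y)) = F' (toA h0 x) + F' (toA h0 y)
        rw [toA_mul hx hy, map_add]
      have h2 := hs _ (isAdm_Lfm hord m _ hcent hm1 hm2)
      have h3 : ∀ i ∈ s, Lfm h0 m (fun x => F' (toA h0 x)) (p i) (h i) (g i) =
          ∑ a, m (p i) a * F' (α i a) := by
        intro i hi
        unfold Lfm
        apply Finset.sum_congr rfl
        intro a _
        congr 1
        by_cases hc : IsConj (h0 ^ (a : ZMod n).val) (h i)
        · rw [mu_of_commute hc (hv i hi).comm]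
          simp only [α, if_pos hc]
        · rw [mu_of_not hc]
          simp only [α, if_neg hc, map_zero]
      have h4 : ∀ i ∈ s, i ∉ T → (c i : ℚ) *
          (Lfm h0 m (fun x => F' (toA h0 x)) (p i) (h i) (g i) : ℚ) = 0 := by
        intro i hi hiT
        rw [h3 i hi, Finset.sum_eq_zero, Int.cast_zero, mul_zero]
        intro a _
        have hc : ¬ IsConj (h0 ^ (a : ZMod n).val) (h i) := by
          intro hc
          apply hiT
          rw [hT, Finset.mem_filter]
          exact ⟨hi, by rw [← cz_pow_val hpow a]; exact cz_of_isConj hc⟩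
        simp only [α, if_neg hc, map_zero, mul_zero]
      rw [← Finset.sum_subset (Finset.filter_subset _ s) h4] at h2
      have h5 : (∑ i ∈ T, (c i : ℚ) *
          (Lfm h0 m (fun x => F' (toA h0 x)) (p i) (h i) (g i) : ℚ)) =
          ((F' (∑ q ∈ n.primeFactors, ∑ a, m q a • Zq q a) : ℤ) : ℚ) := by
        rw [← Finset.sum_fiberwise_of_maps_to (t := n.primeFactors) (g := p) hTp, map_sum]
        push_cast
        apply Finset.sum_congr rfl
        intro q _
        have h6 : ∀ i ∈ T.filter (fun i => p i = q), (c i : ℚ) *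
            (Lfm h0 m (fun x => F' (toA h0 x)) (p i) (h i) (g i) : ℚ) =
            ∑ a, ((m q a * (c i * F' (α i a)) : ℤ) : ℚ) := by
          intro i hi
          obtain ⟨h7, h8⟩ := Finset.mem_filter.1 hi
          rw [h3 i (hTmem i h7).1, h8]
          push_cast
          rw [Finset.mul_sum]
          apply Finset.sum_congr rfl
          intro a _
          ring
        rw [Finset.sum_congr rfl h6, Finset.sum_comm, map_sum]
        push_cast
        apply Finset.sum_congr rfl
        intro a _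
        simp only [Zq]
        rw [map_zsmul, map_sum, smul_eq_mul]
        push_cast
        rw [Finset.mul_sum]
        apply Finset.sum_congr rfl
        intro i _
        rw [map_zsmul, smul_eq_mul]
        push_cast
        ring
      rw [hT] at h5
      rw [h5] at h2
      exact_mod_cast h2
    have h2 := detect_A hZ _ h1 F
    rw [← h2, map_sum]
    apply Finset.sum_congr rfl
    intro q _
    rw [map_sum]
    apply Finset.sum_congr rfl
    intro a _
    rw [map_zsmul, zsmul_eq_mul]
  -- step 2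
  have hq0' : q0 ∈ n.primeFactors := Nat.mem_primeFactors.2 ⟨hq0, hq0n, hnpos.ne'⟩
  set card0 : ℕ := (ucl q0 (1 : (ZMod n)ˣ)).card with hcard0
  have hcard0' : (card0 : ℚ) ≠ 0 := Nat.cast_ne_zero.2 (card_ucl_pos q0 1).ne'
  set B0 := ∑ a ∈ ucl q0 (1 : (ZMod n)ˣ), Zq q0 a with hB0
  have step2 : ∀ q1 ∈ n.primeFactors, ∀ a1 : (ZMod n)ˣ,
      (card0 : ℚ) * ∑ a ∈ ucl q1 a1, E q1 a (Zq q1 a) =
        ((ucl q1 a1).card : ℚ) * E q1 a1 B0 := by
    intro q1 hq1 a1
    let m : ℕ → (ZMod n)ˣ → ℤ := fun q a =>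
      (if q = q1 ∧ uRel n q1 a a1 then (card0 : ℤ) else 0) -
      (if q = q0 ∧ uRel n q0 a 1 then ((ucl q1 a1).card : ℤ) else 0)
    have hcount : ∀ (q' : ℕ) (_ : q' ∈ n.primeFactors) (b : (ZMod n)ˣ) (K : ℤ),
        ∑ q ∈ n.primeFactors, ∑ a : (ZMod n)ˣ, (if q = q' ∧ uRel n q' a b then K else 0) =
        ((ucl q' b).card : ℤ) * K := by
      intro q' hq' b K
      rw [Finset.sum_eq_single q']
      · have h1 : ∀ a : (ZMod n)ˣ, (if q' = q' ∧ uRel n q' a b then K else 0) =
            if uRel n q' a b then K else 0 := by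
          intro a
          simp
        rw [Finset.sum_congr rfl (fun a _ => h1 a), ← Finset.sum_filter, Finset.sum_const,
          nsmul_eq_mul]
        rfl
      · intro q _ hq
        apply Finset.sum_eq_zero
        intro a _
        rw [if_neg (fun h => hq h.1)]
      · intro h
        exact absurd hq' h
    have hcount' : ∀ (q' : ℕ) (_ : q' ∈ n.primeFactors) (b : (ZMod n)ˣ) (K : ℤ)
        (Y : ℕ → (ZMod n)ˣ → ℚ),
        ∑ q ∈ n.primeFactors, ∑ a : (ZMod n)ˣ,
          ((if q = q' ∧ uRel n q' a b then K else 0 : ℤ) : ℚ) * Y q a =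
        (K : ℚ) * ∑ a ∈ ucl q' b, Y q' a := by
      intro q' hq' b K Y
      rw [Finset.sum_eq_single q']
      · have h1 : ∀ a : (ZMod n)ˣ, ((if q' = q' ∧ uRel n q' a b then K else 0 : ℤ) : ℚ) * Y q' a =
            if uRel n q' a b then (K : ℚ) * Y q' a else 0 := by
          intro a
          by_cases hr : uRel n q' a b
          · simp [hr]
          · simp [hr]
        rw [Finset.sum_congr rfl (fun a _ => h1 a), ← Finset.sum_filter, Finset.mul_sum]
        rfl
      · intro q _ hq
        apply Finset.sum_eq_zero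
        intro a _
        rw [if_neg (fun h => hq h.1), Int.cast_zero, zero_mul]
      · intro h
        exact absurd hq' h
    have h1 := step1 m ?_ ?_ (E q1 a1)
    · have h2 : ∀ q ∈ n.primeFactors, ∀ a : (ZMod n)ˣ, (m q a : ℚ) * E q1 a1 (Zq q a) =
          ((if q = q1 ∧ uRel n q1 a a1 then (card0 : ℤ) else 0 : ℤ) : ℚ) * E q1 a1 (Zq q a) -
          ((if q = q0 ∧ uRel n q0 a 1 then ((ucl q1 a1).card : ℤ) else 0 : ℤ) : ℚ) *
            E q1 a1 (Zq q a) := by
        intro q _ a
        simp only [m]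
        push_cast
        ring
      rw [Finset.sum_congr rfl (fun q hq => Finset.sum_congr rfl (fun a _ => h2 q hq a))] at h1
      simp only [Finset.sum_sub_distrib] at h1
      rw [hcount' q1 hq1 a1 _ (fun q a => E q1 a1 (Zq q a)),
        hcount' q0 hq0' 1 _ (fun q a => E q1 a1 (Zq q a))] at h1
      have h3 : ∑ a ∈ ucl q1 a1, E q1 a (Zq q1 a) = ∑ a ∈ ucl q1 a1, E q1 a1 (Zq q1 a) := by
        apply Finset.sum_congr rfl
        intro a ha
        obtain ⟨x, hx, hxα⟩ := exists_toA h0 (Zq q1 a)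
        rw [← hxα, hE q1 a hq1 x hx, hE q1 a1 hq1 x hx]
        obtain ⟨i, k, hik⟩ := mem_ucl.1 ha
        refine hell.frob q1 _ _ x k i (hvalid q1 hq1 a1 x hx) ?_ ?_
        · rw [zpowers_pow_val hpow, zpowers_pow_val hpow]
        · rw [← pow_mul, ← pow_mul, pow_eq_pow_iff_modEq, hord, ← ZMod.natCast_eq_natCast_iff]
          push_cast
          rw [ZMod.natCast_zmod_val, ZMod.natCast_zmod_val]
          exact hik.symm
      have h4 : E q1 a1 B0 = ∑ a ∈ ucl q0 (1 : (ZMod n)ˣ), E q1 a1 (Zq q0 a) := by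
        rw [hB0, map_sum]
      rw [h3, h4]
      push_cast at h1
      linarith
    · intro q a b hab
      simp only [m]
      congr 1
      · by_cases hq : q = q1
        · subst hq
          have : uRel n q a a1 ↔ uRel n q b a1 :=
            ⟨fun h => uRel_trans (uRel_symm hab) h, fun h => uRel_trans hab h⟩
          simp only [this]
        · rw [if_neg (fun h => hq h.1), if_neg (fun h => hq h.1)]
      · by_cases hq : q = q0
        · subst hq
          have : uRel n q a 1 ↔ uRel n q b 1 :=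
            ⟨fun h => uRel_trans (uRel_symm hab) h, fun h => uRel_trans hab h⟩
          simp only [this]
        · rw [if_neg (fun h => hq h.1), if_neg (fun h => hq h.1)]
    · simp only [m, Finset.sum_sub_distrib]
      rw [hcount q1 hq1, hcount q0 hq0']
      ring
  -- step 3
  have step3 : ∑ q ∈ n.primeFactors, ∑ a : (ZMod n)ˣ, E q a (Zq q a) = 0 := by
    have h1 : (card0 : ℚ) * ∑ q ∈ n.primeFactors, ∑ a : (ZMod n)ˣ, E q a (Zq q a) =
        ∑ q ∈ n.primeFactors, ∑ a : (ZMod n)ˣ, E q a B0 := by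
      rw [Finset.mul_sum]
      apply Finset.sum_congr rfl
      intro q hq
      rw [← sum_classes' q (fun a => E q a (Zq q a)), Finset.mul_sum]
      apply Finset.sum_congr rfl
      intro a _
      have h2 : ((ucl q a).card : ℚ) ≠ 0 := Nat.cast_ne_zero.2 (card_ucl_pos q a).ne'
      rw [← mul_div_assoc, step2 q hq a]
      field_simp
    have h2 : ∑ q ∈ n.primeFactors, ∑ a : (ZMod n)ˣ, E q a B0 = 0 := by
      obtain ⟨x, hx, hxα⟩ := exists_toA h0 B0
      rw [← hxα]
      have h3 := hell.sum h0 x hfin0 hx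
      rw [hord] at h3
      rw [← h3]
      apply Finset.sum_congr rfl
      intro q hq
      rw [← sum_units_eq' (fun z => ell q z x)]
      apply Finset.sum_congr rfl
      intro a _
      exact hE q a hq x hx
    rw [h2] at h1
    exact (mul_eq_zero.1 h1).resolve_left hcard0'
  -- step 4
  set W : ℕ := (Finset.univ.filter
    (fun a : (ZMod n)ˣ => IsConj (h0 ^ (a : ZMod n).val) h0)).card with hW
  have hW' : (W : ℚ) ≠ 0 := by
    have : (1 : (ZMod n)ˣ) ∈ Finset.univ.filter
        (fun a : (ZMod n)ˣ => IsConj (h0 ^ (a : ZMod n).val) h0) := by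
      rw [Finset.mem_filter, pow_val_one hpow]
      exact ⟨Finset.mem_univ _, IsConj.refl _⟩
    exact Nat.cast_ne_zero.2 (Finset.card_pos.2 ⟨_, this⟩).ne'
  have step4 : (W : ℚ) * ∑ i ∈ T, (c i : ℚ) * ell (p i) (h i) (g i) =
      ∑ q ∈ n.primeFactors, ∑ a : (ZMod n)ˣ, E q a (Zq q a) := by
    rw [← Finset.sum_fiberwise_of_maps_to (t := n.primeFactors) (g := p) hTp, Finset.mul_sum]
    apply Finset.sum_congr rfl
    intro q hq
    have h1 : ∀ a : (ZMod n)ˣ, E q a (Zq q a) =
        ∑ i ∈ T.filter (fun i => p i = q), (c i : ℚ) * E q a (α i a) := by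
      intro a
      simp only [Zq]
      rw [map_sum]
      apply Finset.sum_congr rfl
      intro i _
      rw [map_zsmul, zsmul_eq_mul]
    rw [Finset.sum_congr rfl (fun a _ => h1 a), Finset.sum_comm, Finset.mul_sum]
    apply Finset.sum_congr rfl
    intro i hi
    obtain ⟨hiT, hpi⟩ := Finset.mem_filter.1 hi
    obtain ⟨his, hcz⟩ := hTmem i hiT
    have h2 : ∀ a : (ZMod n)ˣ, (c i : ℚ) * E q a (α i a) =
        if IsConj (h0 ^ (a : ZMod n).val) (h i) then (c i : ℚ) * ell (p i) (h i) (g i) else 0 := by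
      intro a
      split_ifs with hc
      · simp only [α, if_pos hc]
        have h3 := commute_conj hc (hv i his).comm
        rw [commute_pow_val hpow] at h3
        rw [hE q a hq _ h3]
        have h4 := hell.conj q (h0 ^ (a : ZMod n).val)
          ((cx (h0 ^ (a : ZMod n).val) (h i))⁻¹ * g i * cx (h0 ^ (a : ZMod n).val) (h i))
          (cx (h0 ^ (a : ZMod n).val) (h i)) (hvalid q hq a _ h3)
        rw [← h4, cx_spec hc, hpi]
        congr 2
        group
      · simp only [α, if_neg hc, map_zero, mul_zero]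
    rw [Finset.sum_congr rfl (fun a _ => h2 a), ← Finset.sum_filter, Finset.sum_const,
      nsmul_eq_mul, card_conj hord hcz]
  rw [step3] at step4
  exact (mul_eq_zero.1 step4).resolve_left hW'

end Class

end Pool.Agent.Lib25
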